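import Pool.Agent.helper90.IV.Spec

/-!
# Number of edges (row IV/EID)
-/

set_option autoImplicit false

namespace Pool.Agent.helper44.IV

open Finset Pool.Agent.IV

theorem split_card {X : Type} [Fintype X] (p q : X → Prop) [DecidablePred p]
    [DecidablePred fun x => p x ∧ q x] [DecidablePred fun x => p x ∧ ¬ q x] {a b c : ℕ}
    (ha : (univ.filter p).card = a) (hb : (univ.filter fun x => p x ∧ q x).card = b)
    (hc : (univ.filter fun x => p x ∧ ¬ q x).card = c) : a = b + c := by
  classical
  rw [← ha, ← hb, ← hc, ← Finset.card_union_of_disjoint]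
  · congr 1
    ext x
    simp only [mem_filter, mem_univ, true_and, mem_union]
    tauto
  · rw [Finset.disjoint_left]
    intro x hx hx'
    simp only [mem_filter, mem_univ, true_and] at hx hx'
    exact hx'.2 hx.2

open Classical in
theorem EID : EID_stmt := by
  intro I _ T s gh W hGI
  -- inner edges
  have hE1 : (univ.filter fun e : I × I => T.par e.1 = some e.2).card
      = (univ.filter fun i : I => ¬ T.par i = none).card := by
    refine Finset.card_bij (fun e _ => e.1) ?_ ?_ ?_
    · intro e he
      simp only [mem_filter, mem_univ, true_and] at he ⊢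
      simp [he]
    · intro e he e' he' h
      simp only [mem_filter, mem_univ, true_and] at he he'
      refine Prod.ext h ?_
      rw [h, he'] at he
      exact (Option.some.inj he).symm
    · intro i hi
      simp only [mem_filter, mem_univ, true_and] at hi
      obtain ⟨j, hj⟩ := Option.ne_none_iff_exists'.mp hi
      exact ⟨(i, j), by simp [hj], rfl⟩
  have hE2 : (univ.filter fun i : I => T.par i = none).card = 1 := by
    obtain ⟨o, ho, hu⟩ := T.root
    rw [Finset.card_eq_one]
    refine ⟨o, ?_⟩
    ext i
    simp only [mem_filter, mem_univ, true_and, mem_singleton]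
    exact ⟨hu i, fun h => by rw [h]; exact ho⟩
  have hE3 : Fintype.card I = (univ.filter fun i : I => T.par i = none).card +
      (univ.filter fun i : I => ¬ T.par i = none).card := by
    have := split_card (fun _ : I => True) (fun i => T.par i = none) rfl rfl rfl
    simpa using this
  -- split the inner edges
  set P : I × I → Prop := fun e => T.par e.1 = some e.2 with hP
  have s1 : (univ.filter P).card = (univ.filter fun e => P e ∧ e.1 ∈ W).card +
      (univ.filter fun e => P e ∧ ¬ e.1 ∈ W).card :=
    split_card P (fun e => e.1 ∈ W) rfl rfl rfl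
  have s2 : (univ.filter fun e => P e ∧ e.1 ∈ W).card =
      (univ.filter fun e : I × I => (P e ∧ e.1 ∈ W) ∧ e.2 ∈ W).card +
      (univ.filter fun e : I × I => (P e ∧ e.1 ∈ W) ∧ ¬ e.2 ∈ W).card :=
    split_card (fun e => P e ∧ e.1 ∈ W) (fun e => e.2 ∈ W) rfl rfl rfl
  have s3 : (univ.filter fun e => P e ∧ ¬ e.1 ∈ W).card =
      (univ.filter fun e : I × I => (P e ∧ ¬ e.1 ∈ W) ∧ e.2 ∈ W).card +
      (univ.filter fun e : I × I => (P e ∧ ¬ e.1 ∈ W) ∧ ¬ e.2 ∈ W).card :=
    split_card (fun e => P e ∧ ¬ e.1 ∈ W) (fun e => e.2 ∈ W) rfl rfl rfl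
  -- slots outside
  have hS : ∑ i ∈ Wᶜ, T.ro i = (univ.filter fun r : T.R => ¬ r.1 ∈ W).card := by
    have : (univ.filter fun r : T.R => ¬ r.1 ∈ W) = Wᶜ.sigma (fun i => (univ : Finset (Fin (T.ro i)))) := by
      ext r
      simp
    rw [this, Finset.card_sigma]
    simp
  have s4 : (univ.filter fun r : T.R => ¬ r.1 ∈ W).card =
      (univ.filter fun r : T.R => ¬ r.1 ∈ W ∧ gh r = none).card +
      (univ.filter fun r : T.R => ¬ r.1 ∈ W ∧ ¬ gh r = none).card :=
    split_card (fun r : T.R => ¬ r.1 ∈ W) (fun r => gh r = none) rfl rfl rfl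
  have s5 : (univ.filter fun r : T.R => gh r = none).card =
      (univ.filter fun r : T.R => gh r = none ∧ r.1 ∈ W).card +
      (univ.filter fun r : T.R => gh r = none ∧ ¬ r.1 ∈ W).card :=
    split_card (fun r : T.R => gh r = none) (fun r => r.1 ∈ W) rfl rfl rfl
  -- ghosts and crossing pairs
  have hG : (univ.filter fun r : T.R => ¬ r.1 ∈ W ∧ ¬ gh r = none).card
      = (univ.filter fun p : I × I => (p.1 ∉ W ∧ p.2 ∈ W) ∧ T.nb p.1 p.2).card := by
    have hget : ∀ r : T.R, ∀ h : gh r ≠ none, gh r = some ((gh r).get (Option.isSome_iff_ne_none.mpr h)) :=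
      fun r h => (Option.some_get _).symm
    refine Finset.card_bij (fun r hr => (r.1, (gh r).get (Option.isSome_iff_ne_none.mpr
      (by simp only [mem_filter, mem_univ, true_and] at hr; exact hr.2)))) ?_ ?_ ?_
    · intro r hr
      have hr' := hr
      simp only [mem_filter, mem_univ, true_and] at hr'
      simp only [mem_filter, mem_univ, true_and]
      have h1 := hget r hr'.2
      exact ⟨⟨hr'.1, hGI.mem r _ h1⟩, hGI.gv r _ h1⟩
    · intro r hr r' hr' h
      have k := hr
      have k' := hr'
      simp only [mem_filter, mem_univ, true_and] at k k'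
      have h2 := congrArg Prod.snd h
      simp only at h2
      have h3 := hget r k.2
      have h4 := hget r' k'.2
      rw [← h2] at h4
      exact hGI.once r r' _ h3 h4
    · intro p hp
      simp only [mem_filter, mem_univ, true_and] at hp
      obtain ⟨r, hr1, hr2⟩ := hGI.all p.1 hp.1.1 p.2 hp.1.2 hp.2
      refine ⟨r, ?_, ?_⟩
      · simp only [mem_filter, mem_univ, true_and]
        refine ⟨by rw [hr1]; exact hp.1.1, by rw [hr2]; simp⟩
      · refine Prod.ext hr1 ?_
        simp [hr2]
  have hC : (univ.filter fun p : I × I => (p.1 ∉ W ∧ p.2 ∈ W) ∧ T.nb p.1 p.2).card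
      = (univ.filter fun e : I × I => (P e ∧ ¬ e.1 ∈ W) ∧ e.2 ∈ W).card +
        (univ.filter fun e : I × I => (P e ∧ e.1 ∈ W) ∧ ¬ e.2 ∈ W).card := by
    have hsw : (univ.filter fun e : I × I => (P e ∧ e.1 ∈ W) ∧ ¬ e.2 ∈ W).card
        = (univ.filter fun p : I × I => (p.1 ∉ W ∧ p.2 ∈ W) ∧ T.par p.2 = some p.1).card := by
      refine Finset.card_bij (fun e _ => e.swap) ?_ ?_ ?_
      · intro e he
        simp only [mem_filter, mem_univ, true_and, Prod.fst_swap, Prod.snd_swap, hP] at he ⊢
        exact ⟨⟨he.2, he.1.2⟩, he.1.1⟩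
      · intro e _ e' _ h
        exact Prod.swap_injective h
      · intro p hp
        simp only [mem_filter, mem_univ, true_and] at hp
        refine ⟨p.swap, ?_, by simp⟩
        simp only [mem_filter, mem_univ, true_and, Prod.fst_swap, Prod.snd_swap, hP]
        exact ⟨⟨hp.2, hp.1.2⟩, hp.1.1⟩
    rw [hsw, ← Finset.card_union_of_disjoint]
    · congr 1
      ext p
      simp only [mem_filter, mem_univ, true_and, mem_union, Tr.nb, hP]
      tauto
    · rw [Finset.disjoint_left]
      intro p hp hp'
      simp only [mem_filter, mem_univ, true_and, hP] at hp hp'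
      have h1 := T.lt _ _ hp.1.1
      have h2 := T.lt _ _ hp'.2
      omega
  -- unfold the goal
  have g1 : T.ew Wᶜ = ∑ i ∈ Wᶜ, T.ro i +
      (univ.filter fun e : I × I => (P e ∧ ¬ e.1 ∈ W) ∧ ¬ e.2 ∈ W).card := by
    unfold Tr.ew
    congr 2
    ext e
    simp only [mem_filter, mem_univ, true_and, mem_compl, hP]
    tauto
  have g2 : eB T gh W = (univ.filter fun e : I × I => (P e ∧ e.1 ∈ W) ∧ e.2 ∈ W).card +
      (univ.filter fun r : T.R => gh r = none ∧ r.1 ∈ W).card := by
    unfold eB
    congr 2
    ext e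
    simp only [mem_filter, mem_univ, true_and, hP]
    tauto
  have g3 : nl T gh = (univ.filter fun r : T.R => gh r = none).card := by
    unfold nl
    congr 1
  have s4' : (univ.filter fun r : T.R => ¬ r.1 ∈ W ∧ gh r = none).card
      = (univ.filter fun r : T.R => gh r = none ∧ ¬ r.1 ∈ W).card := by
    congr 1
    ext r
    simp only [mem_filter, mem_univ, true_and]
    tauto
  have t1 : (univ.filter fun e : I × I => T.par e.1 = some e.2).card = (univ.filter P).card := rfl
  omega

end Pool.Agent.helper44.IV
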