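import Pool.Agent.helper90.IV.Spec

/-!
# Weighted paths (row IV/WP)
-/

set_option autoImplicit false

namespace Pool.Agent.helper44.IV

open Finset

/-- weight of a path inside the set with indicator `g` -/
theorem path {N : Type} [Fintype N] (β : N → N → ℝ) (g : N → ℝ) (δ : ℝ) (hδ : 0 ≤ δ)
    (hβ : ∀ w w', 0 ≤ β w w') (hg : ∀ w, g w = 0 ∨ (g w = 1 ∧ δ ≤ ∑ w', g w' * β w' w))
    (h0 : δ ≤ ∑ w, g w) : ∀ h : ℕ, δ ^ (h + 1) ≤
      ∑ x : Fin (h + 1) → N, (∏ i, g (x i)) * ∏ j : Fin h, β (x j.castSucc) (x j.succ) := by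
  have hg0 : ∀ w, 0 ≤ g w := by
    intro w
    rcases hg w with h | h
    · rw [h]
    · rw [h.1]; norm_num
  intro h
  induction h with
  | zero =>
    have : ∑ x : Fin (0 + 1) → N, (∏ i, g (x i)) * ∏ j : Fin 0, β (x j.castSucc) (x j.succ)
        = ∑ w, g w := by
      rw [← (Equiv.funUnique (Fin 1) N).symm.sum_comp]
      simp
    rw [this]
    simpa using h0
  | succ h ih =>
    have e1 : ∑ x : Fin (h + 1 + 1) → N, (∏ i, g (x i)) *
          ∏ j : Fin (h + 1), β (x j.castSucc) (x j.succ)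
        = ∑ y : Fin (h + 1) → N, ((∏ i, g (y i)) * ∏ j : Fin h, β (y j.castSucc) (y j.succ)) *
            ∑ a, g a * β a (y 0) := by
      rw [← (Fin.consEquiv (fun _ : Fin (h + 1 + 1) => N)).sum_comp, Fintype.sum_prod_type_right]
      refine Finset.sum_congr rfl fun y _ => ?_
      rw [Finset.mul_sum]
      refine Finset.sum_congr rfl fun a _ => ?_
      rw [Fin.prod_univ_succ (fun i => g ((Fin.consEquiv (fun _ : Fin (h + 1 + 1) => N)) (a, y) i)),
        Fin.prod_univ_succ (fun j : Fin (h + 1) =>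
          β ((Fin.consEquiv (fun _ : Fin (h + 1 + 1) => N)) (a, y) j.castSucc)
            ((Fin.consEquiv (fun _ : Fin (h + 1 + 1) => N)) (a, y) j.succ))]
      simp only [Fin.consEquiv_apply, Fin.cons_zero, Fin.cons_succ, Fin.castSucc_zero,
        ← Fin.succ_castSucc]
      ring
    rw [e1, pow_succ]
    calc δ ^ (h + 1) * δ ≤ (∑ x : Fin (h + 1) → N, (∏ i, g (x i)) *
          ∏ j : Fin h, β (x j.castSucc) (x j.succ)) * δ := mul_le_mul_of_nonneg_right ih hδ
      _ = ∑ x : Fin (h + 1) → N, ((∏ i, g (x i)) *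
          ∏ j : Fin h, β (x j.castSucc) (x j.succ)) * δ := Finset.sum_mul _ _ _
      _ ≤ _ := by
          refine Finset.sum_le_sum fun y _ => ?_
          rcases hg (y 0) with hy | hy
          · have : ∏ i, g (y i) = 0 := Finset.prod_eq_zero (Finset.mem_univ 0) hy
            rw [this]; simp
          · refine mul_le_mul_of_nonneg_left hy.2 ?_
            exact mul_nonneg (Finset.prod_nonneg fun i _ => hg0 _)
              (Finset.prod_nonneg fun j _ => hβ _ _)

theorem WP : Pool.Agent.IV.WP_stmt := by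
  classical
  intro N _ β ε h pj hsym hβ0 hβ1 hε hN hsum
  set n : ℝ := (Fintype.card N : ℝ) with hn
  have hnpos : 0 < n := by rw [hn]; exact_mod_cast hN
  -- the functional
  let f : Finset N → ℝ := fun S => ∑ w ∈ S, ∑ w' ∈ S, β w w' - ε / 2 * n * S.card
  obtain ⟨S, _, hS⟩ := Finset.exists_max_image (Finset.univ : Finset (Finset N)) f ⟨∅, by simp⟩
  have hS' : ∀ T, f T ≤ f S := fun T => hS T (Finset.mem_univ T)
  have hne : S.Nonempty := by
    rw [Finset.nonempty_iff_ne_empty]
    intro h0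
    have h1 : f Finset.univ ≤ 0 := by
      have := hS' Finset.univ
      rw [h0] at this
      simpa [f] using this
    have h2 : f Finset.univ = ∑ w, ∑ w', β w w' - ε / 2 * n * n := by
      simp [f, hn]
    rw [h2] at h1
    nlinarith [mul_pos hε (mul_pos hnpos hnpos)]
  have hdeg : ∀ w ∈ S, ε / 4 * n ≤ ∑ w' ∈ S, β w w' := by
    intro w hw
    have h1 := hS' (S.erase w)
    have h2 : ∑ v ∈ S, ∑ w' ∈ S, β v w'
        = ∑ v ∈ S.erase w, ∑ w' ∈ S.erase w, β v w' + 2 * ∑ w' ∈ S, β w w' - β w w := by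
      have a1 : ∀ v, ∑ w' ∈ S, β v w' = ∑ w' ∈ S.erase w, β v w' + β v w := fun v =>
        (Finset.sum_erase_add S (fun w' => β v w') hw).symm
      rw [← Finset.sum_erase_add S (fun v => ∑ w' ∈ S, β v w') hw]
      have a2 : ∑ v ∈ S.erase w, ∑ w' ∈ S, β v w'
          = ∑ v ∈ S.erase w, ∑ w' ∈ S.erase w, β v w' + ∑ v ∈ S.erase w, β v w := by
        rw [← Finset.sum_add_distrib]
        exact Finset.sum_congr rfl fun v _ => a1 v
      have a3 : ∑ v ∈ S.erase w, β v w = ∑ w' ∈ S.erase w, β w w' :=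
        Finset.sum_congr rfl fun v _ => hsym v w
      rw [a2, a3, a1 w]
      ring
    have h3 : ((S.erase w).card : ℝ) = S.card - 1 := by
      rw [Finset.card_erase_of_mem hw, Nat.cast_sub (Finset.card_pos.mpr ⟨w, hw⟩)]
      simp
    have h4 : f (S.erase w) = ∑ v ∈ S.erase w, ∑ w' ∈ S.erase w, β v w'
        - ε / 2 * n * (S.card - 1) := by simp only [f, h3]
    have h5 : f S = ∑ v ∈ S, ∑ w' ∈ S, β v w' - ε / 2 * n * S.card := rfl
    rw [h4, h5, h2] at h1
    have h6 := hβ0 w w
    linarith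
  have hcard : ε / 4 * n ≤ S.card := by
    obtain ⟨w, hw⟩ := hne
    calc ε / 4 * n ≤ ∑ w' ∈ S, β w w' := hdeg w hw
      _ ≤ ∑ w' ∈ S, (1 : ℝ) := Finset.sum_le_sum fun w' _ => hβ1 w w'
      _ = S.card := by simp
  let g : N → ℝ := fun w => if w ∈ S then 1 else 0
  have hδ : 0 ≤ ε / 4 * n := by positivity
  have key := path β g (ε / 4 * n) hδ hβ0 (by
    intro w
    by_cases hw : w ∈ S
    · right
      refine ⟨by simp [g, hw], ?_⟩
      have : ∑ w', g w' * β w' w = ∑ w' ∈ S, β w w' := by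
        rw [← Finset.sum_filter_add_sum_filter_not Finset.univ (fun w' => w' ∈ S)]
        have b1 : ∑ w' with w' ∉ S, g w' * β w' w = 0 := by
          refine Finset.sum_eq_zero fun w' hw' => ?_
          have : w' ∉ S := by simpa using hw'
          simp [g, this]
        have b2 : (Finset.univ.filter fun w' => w' ∈ S) = S := by ext; simp
        rw [b1, add_zero, b2]
        refine Finset.sum_congr rfl fun w' hw' => ?_
        simp [g, hw', hsym w' w]
      rw [this]
      exact hdeg w hw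
    · left
      simp [g, hw]) (by
    have : ∑ w, g w = S.card := by simp [g]
    rw [this]
    exact hcard) h
  have hpow : (ε / 4) ^ (h + 1 + ∑ j, pj j) * n ^ (h + 1)
      = (ε / 4 * n) ^ (h + 1) * (ε / 4) ^ (∑ j, pj j) := by
    rw [pow_add, mul_pow]; ring
  rw [hpow]
  calc (ε / 4 * n) ^ (h + 1) * (ε / 4) ^ (∑ j, pj j)
      ≤ (∑ x : Fin (h + 1) → N, (∏ i, g (x i)) * ∏ j : Fin h, β (x j.castSucc) (x j.succ)) *
          (ε / 4) ^ (∑ j, pj j) := mul_le_mul_of_nonneg_right key (by positivity)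
    _ = ∑ x : Fin (h + 1) → N, ((∏ i, g (x i)) * ∏ j : Fin h, β (x j.castSucc) (x j.succ)) *
          (ε / 4) ^ (∑ j, pj j) := Finset.sum_mul _ _ _
    _ ≤ _ := by
        refine Finset.sum_le_sum fun x _ => ?_
        have hP : 0 ≤ ∏ j : Fin h, β (x j.castSucc) (x j.succ) :=
          Finset.prod_nonneg fun j _ => hβ0 _ _
        have hQ : ∀ j, 0 ≤ (∑ w', β (x j) w') / n := fun j =>
          div_nonneg (Finset.sum_nonneg fun w' _ => hβ0 _ _) hnpos.le
        by_cases hx : ∀ i, x i ∈ S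
        · have c1 : ∏ i, g (x i) = 1 := Finset.prod_eq_one fun i _ => by simp [g, hx i]
          rw [c1, one_mul]
          refine mul_le_mul_of_nonneg_left ?_ hP
          rw [← Finset.prod_pow_eq_pow_sum]
          refine Finset.prod_le_prod (fun j _ => by positivity) fun j _ => ?_
          refine pow_le_pow_left₀ (by positivity) ?_ _
          rw [le_div_iff₀ hnpos]
          calc ε / 4 * n ≤ ∑ w' ∈ S, β (x j) w' := hdeg _ (hx j)
            _ ≤ ∑ w', β (x j) w' := Finset.sum_le_sum_of_subset_of_nonneg (Finset.subset_univ S)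
                fun w' _ _ => hβ0 _ _
        · push_neg at hx
          obtain ⟨i, hi⟩ := hx
          have c1 : ∏ i, g (x i) = 0 := Finset.prod_eq_zero (Finset.mem_univ i) (by simp [g, hi])
          rw [c1, zero_mul, zero_mul]
          exact mul_nonneg hP (Finset.prod_nonneg fun j _ => pow_nonneg (hQ j) _)

end Pool.Agent.helper44.IV
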